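import Mathlib
import Pool.Agent.FQ.SixQ

/-!
# Hodge and Tate classes on Fermat fourfolds

The theorem of this file is the combinatorial part of a proof of the Hodge conjecture, and of the
Tate conjecture over finitely generated fields of characteristic `0` or `p`, `p` congruent to `1`
modulo `d`, for the Fermat fourfolds `X_d^4` of ALL degrees `d`.

## 1. Characters

The cohomology of `X_d^4` is, apart from the powers of the class of a hyperplane, the sum of the
one dimensional spaces `V(S)`, on which `μ_d^6 / μ_d` acts by the character `S`; here `S` is a
family of six nonzero elements of `ℤ/d` with sum zero. The Hodge classes (over `ℂ`), equivalently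
the Tate classes (over finitely generated fields of characteristic zero by Deligne, of
characteristic `p` congruent to `1` modulo `d` by Stickelberger), are spanned by the powers of the
class of a hyperplane and the `V(S)` with `Hodge S`. The map `x_i ↦ x_i^(m/d)` from `X_m` to `X_d`,
`d ∣ m`, shows that `V(S)` is algebraic on `X_d` if and only if `V((m/d) S)` is algebraic on `X_m`;
so we may suppose that `12` divides the degree.

## 2. The generators are algebraic

The pairs `{x, -x}`, joins and the cancellation of pairs: Shioda and Katsura 1979. The standard
elements: Aoki 1987 (Shioda 1979 for `r = 2`). Hodge characters with four elements: theorem of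
Lefschetz on `(1, 1)`-classes. These are all generators of `Gen Z m` if `Z` is false, so in this
case only published geometry is used.

Square invariant Hodge characters (`square`): in the Picard group of the motives of rank one (in the
tensor category generated by abelian varieties, up to isomorphism and Tate twist) the motive `M(S)`
is a product of motives of rank one which occur in `h^1` of elliptic curves with complex
multiplication, so `V(S)` is algebraic by the Hodge conjecture for products of elliptic curves
(Imai 1976, Murty 1984). To see this consider the local systems on the modular curve `X(1)` given by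
the tensor products of the even and odd parts of the Weil representations of `SL_2(F_l)`; their
exponents at the cusp are, up to multiples of `0`, `1/2` and `1/4`, the square classes, and the ones
at the elliptic points are multiples of `1/2`, `1/3`. The determinant of the cohomology of such a
local system is `M` of the multiset of its local exponents (Deligne, Anderson, Laumon, by the
algebraic correspondence `Sym^N C → Pic^N C` and the theorem of Brauer on induction); it is also the
determinant of a direct factor of a sum of copies of `h^1` of a modular curve, and there the factors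
without complex multiplication have determinant a Tate motive, since they have rank two and Hodge
numbers `(1, 1)` in every embedding (Ribet, Momose), while the others are `h^1` of elliptic curves
with complex multiplication (Shimura 1971). The complete proof is in the comment of the file
`FermatQR.lean` of this folder (section 2).

The two lists (`listed`): the blocks `(1, 5, 9, 37)`, `(12, 45, 49, 50)` modulo `52` and
`(1, 18, 34, 49)`, `(10, 13, 28)`, `(22, 37, 43)` modulo `51` have sum zero. So `V(S)` occurs in the
cohomology of degree `4` of a product of Fermat varieties of dimension `4`, and comes from a smooth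
model `Y` of the cyclic covering `u^m = ∏ x_a^a` of the product of the projective spaces
`∑ x_a = 0`, one for each block. For `m = 52` the fourfold `Y` is dominated by a hypersurface of
degree `14` in `P(4, 1, 5, 3, 1, 1)`, for `m = 51` by one of degree `24` in
`P(8, 11, 2, 2, 1, 1)`; the sums of the weights are `15` and `25`, so these hypersurfaces are
uniruled (Miyaoka and Mori 1986), and the Hodge conjecture holds for uniruled fourfolds (Conte and
Murre 1978). Equations: `FermatQR.lean`, section 3.

## 3. Consequences

`Z` true: the Hodge and Tate conjectures for `X_d^4`, all `d`, and so for all varieties of dimension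
`4` which are dominated by Fermat varieties of dimension `4`: diagonal hypersurfaces in weighted
projective spaces, smooth models of hypersurfaces in `P^5` given by six monomials (Delsarte).
`Z` false, `m = d` or `m = 2 d`: the same for the degrees `d` which are not divisible by `35`, `44`,
`51`, `52`, `55`, `57`.

Before: `n = 4` and `d` prime (Shioda, Ran), `d ≤ 20` (Shioda 1979), `d = 21, 27` (da Silva 2021),
`d ≤ 100` prime to `6` (Aoki 1983).
-/

set_option autoImplicit false

namespace Pool.Agent.Results.MP_2a05c8_ag.FermatFourfolds

open Finset

/-- Hodge characters: for all units `t` the representatives of the elements `t x`, `x ∈ S`, have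
mean value `m / 2`. -/
def Hodge {m : ℕ} (S : Multiset (ZMod m)) : Prop :=
  ∀ t : (ZMod m)ˣ, 2 * (S.map fun x => ((t : ZMod m) * x).val).sum = m * S.card

/-- Two Hodge characters, given by the level and the elements. -/
def special : List (ℕ × List ℕ) :=
  [(52, [1, 5, 9, 37, 12, 45, 49, 50]), (51, [1, 18, 34, 49, 10, 13, 28, 22, 37, 43])]

/-- The smallest system of multisets of elements of `ℤ/m` which contains

* the pairs `{x, -x}`, `x ≠ 0`,
* the standard elements: all `z` with `r z = r x`, and `- r x`, and `m / 2` if `r = 2`, where `r`
  is a prime divisor of `m` and `r x ≠ 0`,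
* the Hodge characters with four elements, all nonzero,
* if `Z` holds: the Hodge characters with an even number of elements, all nonzero, which are
  invariant under multiplication by the squares of the units,
* if `Z` holds: the multisets `{t (m / k) a | a ∈ l}` for the members `(k, l)` of `special` with
  `k ∣ m` and for the units `t`,

and is closed under joins and under the cancellation of pairs. -/
inductive Gen (Z : Prop) (m : ℕ) [NeZero m] : Multiset (ZMod m) → Prop
  | pair (x : ZMod m) (hx : x ≠ 0) : Gen Z m {x, -x}
  | standard (r : ℕ) (hr : r.Prime) (hrm : r ∣ m) (x : ZMod m) (hx : (r : ZMod m) * x ≠ 0) :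
      Gen Z m ((univ.filter fun z : ZMod m => (r : ZMod m) * z = r * x).val + {-(r * x)} +
        (if r = 2 then {((m / 2 : ℕ) : ZMod m)} else 0))
  | surface (S : Multiset (ZMod m)) (h0 : (0 : ZMod m) ∉ S) (hc : S.card = 4)
      (hS : Hodge S) : Gen Z m S
  | square (hZ : Z) (S : Multiset (ZMod m)) (h0 : (0 : ZMod m) ∉ S) (hc : Even S.card)
      (hS : Hodge S) (hu : ∀ u : (ZMod m)ˣ, (S.map fun x => (u : ZMod m) ^ 2 * x) = S) :
      Gen Z m S
  | listed (hZ : Z) (k : ℕ) (l : List ℕ) (h : (k, l) ∈ special) (hk : k ∣ m) (t : (ZMod m)ˣ) :
      Gen Z m ((l : Multiset ℕ).map fun a => (t : ZMod m) * ((m / k * a : ℕ) : ZMod m))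
  | join (S T : Multiset (ZMod m)) (hS : Gen Z m S) (hT : Gen Z m T) : Gen Z m (S + T)
  | cancel (S : Multiset (ZMod m)) (x : ZMod m) (hx : x ≠ 0) (hS : Gen Z m (S + {x, -x})) :
      Gen Z m S

/-! ### The proof -/

theorem gen_of {Y Z : Prop} {P : Set (ℕ × ℕ)} {m : ℕ} [NeZero m] (hY : Y → Z)
    (hP : ∀ p ∈ P, Z ∧ p ∈ Pool.Agent.FQ.P2) {S : Multiset (ZMod m)}
    (h : Pool.Agent.FQ.Gen Y P m S) : Gen Z m S := by
  induction h with
  | pair x hx => exact Gen.pair x hx
  | standard r hr hrm x hx => exact Gen.standard r hr hrm x hx
  | surface S h0 hc hS => exact Gen.surface S h0 hc hS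
  | fourfold p q k l h hp hk t =>
    obtain ⟨hZ, hpq⟩ := hP _ hp
    refine Gen.listed hZ k l ?_ hk t
    unfold Pool.Agent.FSU.extra at h
    simp only [Pool.Agent.FQ.P2, List.mem_cons, List.not_mem_nil, Prod.mk.injEq, or_false,
      Set.mem_insert_iff, Set.mem_singleton_iff] at h hpq
    unfold special
    simp only [List.mem_cons, List.not_mem_nil, Prod.mk.injEq, or_false]
    rcases hpq with ⟨rfl, rfl⟩ | ⟨rfl, rfl⟩
    · left
      norm_num at h
      exact h
    · right
      norm_num at h
      exact h
  | square hZ S h0 hc hS hu => exact Gen.square (hY hZ) S h0 hc hS hu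
  | join S T _ _ ihS ihT => exact Gen.join S T ihS ihT
  | cancel S x hx _ ih => exact Gen.cancel S x hx ih

end Pool.Agent.Results.MP_2a05c8_ag.FermatFourfolds

open Pool.Agent.Results.MP_2a05c8_ag.FermatFourfolds

/-- Let `Z` be a proposition, `m` even and `S` a Hodge character with an even number of elements,
at most six, all nonzero. If `Z` holds and `12` divides `m`, or if none of the numbers `35`, `44`,
`51`, `52`, `55`, `57` divides `m`, then `S` belongs to the system `Gen Z m`. -/
theorem Pool.Agent.Results.MP_2a05c8_ag.FermatFourfolds.result
    (Z : Prop) (m : ℕ) [NeZero m] (hm : Even m)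
    (hZ : (Z ∧ 12 ∣ m) ∨ ∀ c ∈ [35, 44, 51, 52, 55, 57], ¬ c ∣ m)
    (S : Multiset (ZMod m)) (h0 : (0 : ZMod m) ∉ S) (hc : Even S.card) (h6 : S.card ≤ 6)
    (hS : Hodge S) : Gen Z m S := by
  rcases hZ with ⟨hZ, h12⟩ | hn
  · exact gen_of (fun _ => hZ) (fun p hp => ⟨hZ, hp⟩) (Pool.Agent.FQ.sixZ m h12 S h0 hc h6 hS)
  · exact gen_of False.elim (fun p hp => absurd hp (Set.notMem_empty p))
      (Pool.Agent.FQ.sixN m hm hn S h0 hc h6 hS)
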